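import Pool.Agent.K3h60.MK.Proof

/-!
# Injective homomorphism counts into the planes `PG(2,p)`, `p` prime, do not converge

`MK` is the incidence graph of the Möbius-Kantor configuration `8₃`: points and lines are the
elements of `ZMod 8`, and the line `j` contains the points `j`, `j + 1`, `j + 3`.
An injective homomorphism of `MK` into the incidence graph of `PG(2,K)` exists if and only if
`z ^ 2 - z + 1` has a root in `K`. For `K = ZMod p` this holds for `p ≡ 1 mod 3` and fails for
`p ≡ 2 mod 3`, and by Dirichlet's theorem there are infinitely many primes of both kinds.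
So `log_p inj (MK, G_p)` is `-∞` infinitely often and nonnegative infinitely often.
The definitions are in `Pool.Agent.K3h60.MK.Defs`.
-/

set_option autoImplicit false

open Filter Topology

namespace Pool.Agent.Results.MP_5e7574_co.MobiusKantor

open Pool.Agent.K3h60.MK

/-- **Negative answer to Q1.** For the Möbius-Kantor graph `MK` there is no injective homomorphism
into the incidence graph of `PG(2,p)` for all primes `p ≡ 2 mod 3` and there is one for all primes
`p ≡ 1 mod 3`. So over the primes `liminf log_p inj (MK, G_p) = -∞` and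
`limsup log_p inj (MK, G_p) ≥ 0`, and it is not true that `log_p inj (H, G_p)` converges in
`[-∞, ∞)` for all finite bipartite graphs `H` with an edge. -/
theorem result :
    ((∃ i j, MK.E i j) ∧
      (∀ (p : ℕ) [Fact p.Prime], p % 3 = 2 → inj MK (planeGraph (ZMod p)) = 0) ∧
      (∀ (p : ℕ) [Fact p.Prime], p % 3 = 1 → inj MK (planeGraph (ZMod p)) ≠ 0) ∧
      liminf (fun n => logInj MK (nthPrime n)) atTop = ⊥ ∧
      0 ≤ limsup (fun n => logInj MK (nthPrime n)) atTop) ∧
    ¬ ∀ H : BipGraph, (∃ i j, H.E i j) →
      ∃ l : EReal, l ≠ ⊤ ∧ Tendsto (fun n => logInj H (nthPrime n)) atTop (𝓝 l) := by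
  have hE : ∃ i j, MK.E i j := ⟨(0 : ZMod 8), (0 : ZMod 8), Or.inl rfl⟩
  have h1 : liminf (fun n => logInj MK (nthPrime n)) atTop = ⊥ := by
    refine le_bot_iff.1 (liminf_le_of_frequently_le' ?_)
    exact (freq_mod 2 (Or.inr rfl)).mono fun n hn => (logInj_bot _ hn).le
  have h2 : 0 ≤ limsup (fun n => logInj MK (nthPrime n)) atTop := by
    refine le_limsup_of_frequently_le' ?_
    exact (freq_mod 1 (Or.inl rfl)).mono fun n hn => logInj_nonneg _ hn
  refine ⟨⟨hE, fun p _ h => inj_zero p h, fun p _ h => inj_ne_zero p h, h1, h2⟩, ?_⟩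
  intro h
  obtain ⟨l, -, hl⟩ := h MK hE
  rw [hl.liminf_eq] at h1
  rw [hl.limsup_eq, h1] at h2
  exact absurd h2 (by simp)

end Pool.Agent.Results.MP_5e7574_co.MobiusKantor
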